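import Mathlib

set_option autoImplicit false

namespace Pool.Agent.Results.MP_68f07c_an.Counter

open Finset Filter Topology Submodule

variable {X Y : Type} [NormedAddCommGroup X] [NormedSpace ℝ X] [NormedAddCommGroup Y]
  [NormedSpace ℝ Y]

/-- The closed linear span of a sequence. -/
def cspan (u : ℕ → X) : Submodule ℝ X := (span ℝ (Set.range u)).topologicalClosure

/-- Basic sequences: Schauder bases of their closed linear span. -/
def IsBasic (u : ℕ → X) : Prop :=
  ∀ y ∈ cspan u, ∃! a : ℕ → ℝ, Tendsto (fun N => ∑ i ∈ range N, a i • u i) atTop (𝓝 y)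

/-- Equivalent sequences. -/
def Equivalent (u : ℕ → X) (v : ℕ → Y) : Prop :=
  ∀ a : ℕ → ℝ, (∃ y, Tendsto (fun N => ∑ i ∈ range N, a i • u i) atTop (𝓝 y)) ↔
    ∃ z, Tendsto (fun N => ∑ i ∈ range N, a i • v i) atTop (𝓝 z)

/-- Restriction of a functional to a subspace. -/
noncomputable def res (G : Submodule ℝ X) (f : StrongDual ℝ X) : StrongDual ℝ G :=
  f.comp G.subtypeL

theorem basic [CompleteSpace X] (f : ℕ → X)
    (h : ∀ (a : ℕ → ℝ) n, ‖∑ i ∈ range n, a i • f i‖ = ∑ i ∈ range n, |a i|) : IsBasic f := by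
  have f1 : ∀ n, ‖f n‖ = 1 := fun n => by
    simpa [Pi.single_apply, apply_ite abs] using h (Pi.single n 1) (n + 1)
  have s : ∀ a : lp (fun _ : ℕ => ℝ) 1, Summable fun i => ‖a i‖ := fun a => by
    simpa using a.2.summable
  let T : lp (fun _ : ℕ => ℝ) 1 →L[ℝ] X := (lp.tsumCLM ℝ _ X).comp (lp.mapCLM 1
    (fun i => ContinuousLinearMap.toSpanSingleton ℝ (f i)) zero_le_one fun i => by simp [f1])
  have t : ∀ a, Tendsto (fun N => ∑ i ∈ range N, a i • f i) atTop (𝓝 (T a)) := fun a =>
    ((s a).of_norm_bounded fun i => by simp [norm_smul, f1]).hasSum.tendsto_sum_nat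
  have i : Isometry T := AddMonoidHomClass.isometry_of_norm _ fun a => by
    rw [lp.norm_eq_tsum_rpow (by simp)]
    simpa using tendsto_nhds_unique (t a).norm (by simpa [h] using (s a).hasSum.tendsto_sum_nat)
  intro y hy
  obtain ⟨a, rfl⟩ := topologicalClosure_minimal _ (t := T.range) (span_le.mpr (by
    rintro _ ⟨n, rfl⟩
    exact ⟨lp.single 1 n 1, tendsto_nhds_unique (t _) (tendsto_const_nhds.congr'
      ((eventually_gt_atTop n).mono fun m l => by simp [Pi.single_apply, l]))⟩))
    i.isClosedEmbedding.isClosed_range hy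
  refine ⟨a, t a, fun b hb => funext fun n => sub_eq_zero.mp (abs_nonpos_iff.mp
    (ge_of_tendsto (by simpa using (hb.sub (t a)).norm) ((eventually_gt_atTop n).mono
      fun m l => ?_)))⟩
  simp only [← sum_sub_distrib, ← sub_smul, h]
  exact single_le_sum (f := fun i => |b i - a i|) (fun _ _ => abs_nonneg _) (mem_range.mpr l)

abbrev E := lp (fun _ : ℕ ⊕ List Bool => ℝ) 1

theorem exF (w : ℕ ⊕ List Bool → ℝ) (K : ℝ) (h : ∀ i, |w i| ≤ K) : ∃ F : StrongDual ℝ E,
    ‖F‖ ≤ K ∧ (∀ x, F x = ∑' i, x i * w i) ∧ ∀ i, F (lp.single 1 i 1) = w i := by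
  have k := (abs_nonneg _).trans (h (.inl 0))
  refine ⟨(lp.tsumCLM ℝ _ ℝ).comp (lp.mapCLM 1 (fun i => ContinuousLinearMap.toSpanSingleton ℝ
    (w i)) k fun i => by simpa using h i), (ContinuousLinearMap.opNorm_comp_le _ _).trans
    ((mul_le_mul lp.norm_tsumCLM_le (lp.norm_mapCLM_le _ _ _ _) (norm_nonneg _) zero_le_one).trans_eq
    (one_mul _)), fun _ => rfl, fun i => (tsum_eq_single i fun j c => ?_).trans ?_⟩
  · simp [Pi.single_eq_of_ne c]
  · simp

def w (n : ℕ) : ℕ ⊕ List Bool → ℝ
  | .inl m => if n = m then 1 else 0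
  | .inr l => if n < l.length then if l.getD n true then 1 else -1 else
      if n.unpair.1 = Encodable.encode l then 1 else 0

theorem result : ∃ (E : Type) (_ : NormedAddCommGroup E) (_ : NormedSpace ℝ E),
    CompleteSpace E ∧ ∃ (x : ℕ → E) (f : ℕ → StrongDual ℝ E),
      (∀ i j, f i (x j) = if i = j then 1 else 0) ∧ IsBasic x ∧ IsBasic f ∧
      IsClosed {v : E | ∃ g ∈ cspan x, ∃ y, (∀ n, f n y = 0) ∧ v = g + y} ∧
      ¬ Equivalent f fun n => res (cspan x) (f n) := by
  have w1 : ∀ n i, |w n i| ≤ 1 := by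
    rintro n (m | l) <;> simp only [w] <;> split_ifs <;> simp
  choose f f1 f2 f3 using fun n => exF (w n) 1 (w1 n)
  let x : ℕ → E := fun n => lp.single 1 (.inl n) 1
  have a : ∀ (a : ℕ → ℝ) n, ‖∑ i ∈ range n, a i • f i‖ = ∑ i ∈ range n, |a i| := fun a n => by
    refine le_antisymm (norm_sum_le_of_le _ fun i _ => by
      simpa [norm_smul] using mul_le_of_le_one_right (abs_nonneg _) (f1 i)) ?_
    have := (∑ i ∈ range n, a i • f i).le_opNorm
      (lp.single 1 (.inr ((List.range n).map fun i => decide (0 ≤ a i))) 1)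
    rw [lp.norm_single one_pos, norm_one, mul_one, _root_.sum_apply] at this
    refine le_trans (le_of_eq (sum_congr rfl fun i c => ?_)) ((le_abs_self _).trans this)
    by_cases h : 0 ≤ a i
    · simp [f3, w, mem_range.mp c, h, abs_of_nonneg]
    · simp [f3, w, mem_range.mp c, h, abs_of_neg (not_le.mp h)]
  have t : ∀ y : E, (∀ n, f n y = 0) → y = 0 := fun y h => by
    have b : ∀ l, y (.inr l) = 0 := fun l => by
      have := tendsto_tsum_of_dominated_convergence (𝓕 := atTop) (bound := fun i => ‖y i‖)
        (f := fun k i => y i * w (Nat.pair (Encodable.encode l) k) i)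
        (g := fun i => if i = .inr l then y i else 0) (by simpa using y.2.summable)
        (fun i => tendsto_const_nhds.congr' (by
          rcases i with m | m
          · exact (eventually_gt_atTop m).mono fun k c => by
              simp [w, (c.trans_le (Nat.right_le_pair _ _)).ne']
          · exact (eventually_ge_atTop m.length).mono fun k c => by
              simp [w, (c.trans (Nat.right_le_pair _ _)).not_gt, eq_comm]))
        (.of_forall fun k i => by
          simpa using mul_le_of_le_one_right (abs_nonneg _) (w1 _ i))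
      simpa [← f2, h, eq_comm] using this
    ext (n | l)
    · have := h n
      rw [f2, tsum_eq_single (.inl n) (by
        rintro (m | l) c
        exacts [by simp [w, show n ≠ m from fun z => c (z ▸ rfl)], by simp [b]])] at this
      simpa [w] using this
    · exact b l
  refine ⟨E, inferInstance, inferInstance, inferInstance, x, f, fun i j => f3 i _,
    basic x fun a n => ?_, basic f a, ?_, fun h => ?_⟩
  · have := lp.norm_sum_single (E := fun _ : ℕ ⊕ List Bool => ℝ) (p := 1) (by simp)
      (fun i => i.elim a 0) ((range n).map ⟨.inl, Sum.inl_injective⟩)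
    simpa [x, ← lp.single_smul] using this
  · convert isClosed_topologicalClosure (span ℝ (Set.range x))
    ext v
    exact ⟨fun ⟨g, c, y, h, e⟩ => by rwa [e, t y h, add_zero], fun c => ⟨v, c, 0, by simp, by simp⟩⟩
  · obtain ⟨F, -, -, F3⟩ := exF (Sum.elim (fun n => 1 / (n + 1)) 0) 1 (by
      rintro (n | l)
      · exact (abs_of_pos Nat.one_div_pos_of_nat).trans_le ((div_le_one n.cast_add_one_pos).mpr (by simp))
      · simp)
    refine ((h fun n => 1 / (n + 1)).mpr ⟨res _ F, tendsto_iff_norm_sub_tendsto_zero.mpr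
      (squeeze_zero (fun _ => ContinuousLinearMap.opNorm_nonneg _) (fun N => ?_)
      tendsto_one_div_add_atTop_nhds_zero_nat)⟩).elim fun y hy => ?_
    on_goal 2 =>
      refine not_tendsto_atTop_of_tendsto_nhds hy.norm ?_
      simpa only [a, abs_of_pos (Nat.one_div_pos_of_nat (α := ℝ))]
        using Real.tendsto_sum_range_one_div_nat_succ_atTop
    obtain ⟨H, H1, -, H3⟩ := exF (Sum.elim (fun n => if n < N then 0 else -1 / (n + 1)) 0)
      (1 / (N + 1)) (by
        rintro (n | l)
        · by_cases c : n < N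
          · simp [c]; positivity
          · simp only [Sum.elim_inl, c, if_false, neg_div, abs_neg]
            rw [abs_of_nonneg (by positivity)]
            gcongr
            omega
        · simp; positivity)
    refine ContinuousLinearMap.opNorm_le_bound _ (by positivity) fun g =>
      le_trans (le_of_eq (congrArg _ ?_)) (H.le_of_opNorm_le H1 g.1)
    have := ContinuousLinearMap.eqOn_closure_span (s := Set.range x) (g := H)
      (f := ∑ i ∈ range N, (1 / (i + 1) : ℝ) • f i - F) (by
        rintro _ ⟨n, rfl⟩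
        by_cases c : n < N <;> simp [x, f3, F3, H3, w, c, neg_div]) g.2
    simpa [res] using this

end Pool.Agent.Results.MP_68f07c_an.Counter
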